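import Pool.Agent.H48.THU.B
import Pool.Agent.H49.MED.RTN
import Pool.Agent.H99.MED.RTS
import Pool.Agent.H2.FEX.OMB
import Pool.Agent.H93.BT.Divb

/-! # THU: `r u ^ g - s w ^ g = m` has at most `C H ^ ε` solutions `u, w ≤ H` -/

set_option autoImplicit false

namespace Pool.THU

open Finset

/-- the solutions -/
def Sol (g H r s : ℕ) (m : ℤ) : Finset (ℕ × ℕ) :=
  (Icc 1 H ×ˢ Icc 1 H).filter (fun z => (r : ℤ) * (z.1 : ℤ) ^ g - s * (z.2 : ℤ) ^ g = m)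

/-- the key of a solution without the class -/
def key1 (g r n : ℕ) (z : ℕ × ℕ) : ((ℕ × ℕ) × ℕ) × ℕ :=
  (((Nat.gcd (r * z.1 ^ g) n, Nat.gcd z.1 n), Nat.gcd z.2 n), Nat.log 2 z.1)

/-- the key of a solution -/
def key (g r n : ℕ) (z : ℕ × ℕ) : (((ℕ × ℕ) × ℕ) × ℕ) × ℕ :=
  (key1 g r n z, zz n (Nat.gcd (r * z.1 ^ g) n) z.1 z.2)

/-- the fibres of the key -/
theorem fibre (g : ℕ) (hg : 2 ≤ g) (H r s n : ℕ) (m : ℤ) (hn : 0 < n) (hr : 0 < r) (hs : 0 < s)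
    (hm : n = m.natAbs) (y : (((ℕ × ℕ) × ℕ) × ℕ) × ℕ) (hy : y ∈ (Sol g H r s m).image (key g r n)) :
    ((Sol g H r s m).filter (fun z => key g r n z = y)).card ≤ (2 * (4 ^ g + 2) + 1) * g := by
  classical
  obtain ⟨b, hb, hby⟩ := Finset.mem_image.mp hy
  obtain ⟨F, hF⟩ : ∃ F, F = (Sol g H r s m).filter (fun z => key g r n z = y) := ⟨_, rfl⟩
  rw [← hF]
  have hm0 : m ≠ 0 := by
    intro h0
    rw [h0] at hm
    simp at hm
    omega
  have hb' := (Finset.mem_filter.mp hb)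
  have hb1 := Finset.mem_product.mp hb'.1
  have hv := (Finset.mem_Icc.mp hb1.1).1
  have hx := (Finset.mem_Icc.mp hb1.2).1
  have hbeq := hb'.2
  -- the linear form
  let E : ℕ × ℕ → ℤ := fun z => (r : ℤ) * (b.1 : ℤ) ^ (g - 1) * z.1 - s * (b.2 : ℤ) ^ (g - 1) * z.2
  have hEd : ∀ z, E z = (r : ℤ) * (b.1 : ℤ) ^ (g - 1) * z.1 - s * (b.2 : ℤ) ^ (g - 1) * z.2 :=
    fun _ => rfl
  have hE : ∀ z ∈ F, m ∣ E z ∧ |E z| ≤ (4 ^ g + 2) * |m| := by
    intro z hz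
    rw [hF] at hz
    obtain ⟨hz1, hz2⟩ := Finset.mem_filter.mp hz
    obtain ⟨hz3, hz4⟩ := Finset.mem_filter.mp hz1
    have hz5 := Finset.mem_product.mp hz3
    have hu := (Finset.mem_Icc.mp hz5.1).1
    have hw := (Finset.mem_Icc.mp hz5.2).1
    have hk : key g r n z = key g r n b := hz2.trans hby.symm
    have hk1 : key1 g r n z = key1 g r n b := congrArg Prod.fst hk
    have hk2 : zz n (Nat.gcd (r * z.1 ^ g) n) z.1 z.2 = zz n (Nat.gcd (r * b.1 ^ g) n) b.1 b.2 :=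
      congrArg Prod.snd hk
    have hk3 : Nat.log 2 z.1 = Nat.log 2 b.1 := by
      have h0 := congrArg Prod.snd hk1
      simpa only [key1] using h0
    have hk4 := congrArg Prod.fst hk1
    have hk5 : Nat.gcd z.2 n = Nat.gcd b.2 n := congrArg Prod.snd hk4
    have hk6 := congrArg Prod.fst hk4
    have hk7 : Nat.gcd (r * z.1 ^ g) n = Nat.gcd (r * b.1 ^ g) n := congrArg Prod.fst hk6
    have hk8 : Nat.gcd z.1 n = Nat.gcd b.1 n := congrArg Prod.snd hk6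
    refine ⟨?_, ?_⟩
    · exact integral g r s z.1 z.2 b.1 b.2 n (Nat.gcd (r * z.1 ^ g) n) (Nat.gcd z.1 n)
        (Nat.gcd z.2 n) (zz n (Nat.gcd (r * z.1 ^ g) n) z.1 z.2) m (by omega) hn hr hs hu hw hv hx hm
        hz4 hbeq rfl hk7 rfl hk8 rfl hk5 rfl (by rw [hk2, hk7])
    · have hzb : z.1 ≤ 2 * b.1 := by
        have h1 : z.1 < 2 ^ (Nat.log 2 z.1 + 1) := Nat.lt_pow_succ_log_self (by norm_num) _
        have h2 : 2 ^ Nat.log 2 b.1 ≤ b.1 := Nat.pow_log_le_self 2 (by omega)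
        rw [hk3, pow_succ] at h1
        omega
      have hbz : b.1 ≤ 2 * z.1 := by
        have h1 : b.1 < 2 ^ (Nat.log 2 b.1 + 1) := Nat.lt_pow_succ_log_self (by norm_num) _
        have h2 : 2 ^ Nat.log 2 z.1 ≤ z.1 := Nat.pow_log_le_self 2 (by omega)
        rw [← hk3, pow_succ] at h1
        omega
      have h3 := arch g (by omega) (r : ℝ) s z.1 z.2 b.1 b.2 (m : ℝ) (by exact_mod_cast hu)
        (by exact_mod_cast hw) (by exact_mod_cast hv) (by exact_mod_cast hx)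
        (by exact_mod_cast hz4) (by exact_mod_cast hbeq) (by exact_mod_cast hzb)
        (by exact_mod_cast hbz)
      have h4 : ((|E z| : ℤ) : ℝ) ≤ (((4 ^ g + 2) * |m| : ℤ) : ℝ) := by
        rw [hEd]
        push_cast
        exact h3
      exact_mod_cast h4
  -- the quotient
  have hcard : F.card ≤ g * (F.image (fun z => E z / m)).card := by
    refine Finset.card_le_mul_card_image F g ?_
    intro q hq
    refine line g hg (r : ℝ) s ((r : ℝ) * (b.1 : ℝ) ^ (g - 1)) ((s : ℝ) * (b.2 : ℝ) ^ (g - 1))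
      ((q : ℝ) * m) (m : ℝ) (by positivity) (by positivity) (by exact_mod_cast hm0) _ ?_
    intro z hz
    obtain ⟨hz1, hz2⟩ := Finset.mem_filter.mp hz
    have hz3 : z ∈ Sol g H r s m := by
      have : z ∈ F := hz1
      rw [hF] at this
      exact (Finset.mem_filter.mp this).1
    have hz4 := (Finset.mem_filter.mp hz3).2
    refine ⟨by exact_mod_cast hz4, ?_⟩
    have h5 : E z = q * m := by
      rw [← hz2]; exact (Int.ediv_mul_cancel (hE z hz1).1).symm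
    have h6 : ((E z : ℤ) : ℝ) = ((q * m : ℤ) : ℝ) := by rw [h5]
    rw [hEd] at h6
    push_cast at h6
    exact h6
  have himg : (F.image (fun z => E z / m)).card ≤ 2 * (4 ^ g + 2) + 1 := by
    have hsub : F.image (fun z => E z / m) ⊆ Finset.Icc (-((4 : ℤ) ^ g + 2)) (4 ^ g + 2) := by
      intro q hq
      obtain ⟨z, hz, rfl⟩ := Finset.mem_image.mp hq
      obtain ⟨⟨k, hk⟩, h2⟩ := hE z hz
      have h3 : E z / m = k := by rw [hk]; exact Int.mul_ediv_cancel_left k hm0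
      show E z / m ∈ _
      rw [h3, Finset.mem_Icc, ← abs_le]
      rw [hk, abs_mul, mul_comm] at h2
      exact le_of_mul_le_mul_right h2 (abs_pos.mpr hm0)
    refine (Finset.card_le_card hsub).trans ?_
    rw [Int.card_Icc]
    have : (4 : ℤ) ^ g + 2 + 1 - -((4 : ℤ) ^ g + 2) = ((2 * (4 ^ g + 2) + 1 : ℕ) : ℤ) := by
      push_cast; ring
    rw [this, Int.toNat_natCast]
  calc F.card ≤ g * (F.image (fun z => E z / m)).card := hcard
    _ ≤ g * (2 * (4 ^ g + 2) + 1) := Nat.mul_le_mul_left _ himg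
    _ = (2 * (4 ^ g + 2) + 1) * g := Nat.mul_comm _ _

/-- the number of the keys -/
theorem keys (g : ℕ) (hg : 2 ≤ g) (H r s n : ℕ) (m : ℤ) (hn : 0 < n) (hr : 0 < r)
    (hs : 0 < s) (hm : n = m.natAbs) :
    ((Sol g H r s m).image (key g r n)).card ≤
      (2 * g) ^ n.primeFactors.card * (n.divisors.card ^ 3 * (Nat.log 2 H + 1)) := by
  classical
  obtain ⟨T, hT⟩ : ∃ T, T = (Sol g H r s m).image (key g r n) := ⟨_, rfl⟩
  rw [← hT]
  have h1 : T.card ≤ (2 * g) ^ n.primeFactors.card * (T.image Prod.fst).card := by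
    refine Finset.card_le_mul_card_image T _ ?_
    intro k hk
    -- the classes `z` of the key `k`
    obtain ⟨t0, ht0, htk⟩ := Finset.mem_image.mp hk
    have hGn : k.1.1.1 ∣ n ∧ 0 < k.1.1.1 := by
      rw [hT] at ht0
      obtain ⟨z, hz, rfl⟩ := Finset.mem_image.mp ht0
      rw [← htk]
      exact ⟨Nat.gcd_dvd_right _ _, Nat.gcd_pos_of_pos_right _ hn⟩
    have hM0 : 0 < n / k.1.1.1 := Nat.div_pos (Nat.le_of_dvd hn hGn.1) hGn.2
    have hNZ : NeZero (n / k.1.1.1) := ⟨hM0.ne'⟩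
    have hinj : Set.InjOn (fun t : ((((ℕ × ℕ) × ℕ) × ℕ) × ℕ) => t.2)
        ((T.filter (fun t => t.1 = k) : Finset _) : Set _) := by
      intro t ht t' ht' h
      have h2 := (Finset.mem_filter.mp (Finset.mem_coe.mp ht)).2
      have h3 := (Finset.mem_filter.mp (Finset.mem_coe.mp ht')).2
      exact Prod.ext (h2.trans h3.symm) h
    rw [← Finset.card_image_of_injOn hinj]
    have hmem : ∀ x ∈ (T.filter (fun t => t.1 = k)).image (fun t => t.2),
        x < n / k.1.1.1 ∧ ((r * k.1.1.2 ^ g / k.1.1.1 : ℕ) : ZMod (n / k.1.1.1)) *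
          (x : ZMod (n / k.1.1.1)) ^ g = ((s * k.1.2 ^ g / k.1.1.1 : ℕ) : ZMod (n / k.1.1.1)) ∧
        Nat.Coprime (r * k.1.1.2 ^ g / k.1.1.1) (n / k.1.1.1) ∧
        Nat.Coprime (s * k.1.2 ^ g / k.1.1.1) (n / k.1.1.1) := by
      intro x hx
      obtain ⟨t, ht, rfl⟩ := Finset.mem_image.mp hx
      obtain ⟨ht1, ht2⟩ := Finset.mem_filter.mp ht
      rw [hT] at ht1
      obtain ⟨z, hz, rfl⟩ := Finset.mem_image.mp ht1
      have hz' := Finset.mem_filter.mp hz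
      have hz5 := Finset.mem_product.mp hz'.1
      have hu := (Finset.mem_Icc.mp hz5.1).1
      have hw := (Finset.mem_Icc.mp hz5.2).1
      have ht3 : key1 g r n z = k := ht2
      subst ht3
      obtain ⟨c1, c2, c3⟩ := cls g r s z.1 z.2 n (Nat.gcd (r * z.1 ^ g) n) m (by omega) hn hr hs hu hw
        hm hz'.2 rfl
      have d1 := side g r z.1 n (Nat.gcd (r * z.1 ^ g) n) (by omega) hn hr hu rfl
      have d2 := side g s z.2 n (Nat.gcd (r * z.1 ^ g) n) (by omega) hn hs hw c1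
      refine ⟨?_, c3, d1.2.1, d2.2.1⟩
      have hNZ' : NeZero (n / Nat.gcd (r * z.1 ^ g) n) := hNZ
      exact ZMod.val_lt _
    have hR := Pool.MED.rtn_thm Pool.MED.rts_thm (n / k.1.1.1) g (n / k.1.1.1 - 1)
      ((T.filter (fun t => t.1 = k)).image (fun t => t.2)) hM0 (by omega) ?_ ?_
    · have h4 : (n / k.1.1.1 - 1) / (n / k.1.1.1) = 0 := Nat.div_eq_of_lt (by omega)
      rw [h4, zero_add, mul_one] at hR
      refine hR.trans (Nat.pow_le_pow_right (by omega) (Finset.card_le_card ?_))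
      exact Nat.primeFactors_mono (Nat.div_dvd_of_dvd hGn.1) hn.ne'
    · intro x hx
      obtain ⟨h5, h6, h7, h8⟩ := hmem x hx
      refine ⟨?_, by omega⟩
      have h9 : IsUnit ((x : ZMod (n / k.1.1.1)) ^ g) := by
        have h10 : IsUnit (((r * k.1.1.2 ^ g / k.1.1.1 : ℕ) : ZMod (n / k.1.1.1)) *
            (x : ZMod (n / k.1.1.1)) ^ g) := by
          rw [h6]; exact (ZMod.isUnit_iff_coprime _ _).mpr h8
        exact isUnit_of_mul_isUnit_right h10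
      exact (ZMod.isUnit_iff_coprime _ _).mp ((isUnit_pow_iff (by omega)).mp h9)
    · intro x hx y hy
      obtain ⟨h5, h6, h7, h8⟩ := hmem x hx
      obtain ⟨h5', h6', h7', h8'⟩ := hmem y hy
      refine (ZMod.natCast_eq_natCast_iff _ _ _).mp ?_
      push_cast
      exact ((ZMod.isUnit_iff_coprime _ _).mpr h7).mul_left_cancel (h6.trans h6'.symm)
  have h2 : (T.image Prod.fst).card ≤ n.divisors.card ^ 3 * (Nat.log 2 H + 1) := by
    have hsub : T.image Prod.fst ⊆ ((n.divisors ×ˢ n.divisors) ×ˢ n.divisors) ×ˢ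
        range (Nat.log 2 H + 1) := by
      intro k hk
      obtain ⟨t, ht, rfl⟩ := Finset.mem_image.mp hk
      rw [hT] at ht
      obtain ⟨z, hz, rfl⟩ := Finset.mem_image.mp ht
      have hz5 := Finset.mem_product.mp (Finset.mem_filter.mp hz).1
      have hu := (Finset.mem_Icc.mp hz5.1).2
      show key1 g r n z ∈ _
      rw [key1, Finset.mem_product, Finset.mem_product, Finset.mem_product, Finset.mem_range]
      refine ⟨⟨⟨?_, ?_⟩, ?_⟩, ?_⟩
      · exact Nat.mem_divisors.mpr ⟨Nat.gcd_dvd_right _ _, hn.ne'⟩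
      · exact Nat.mem_divisors.mpr ⟨Nat.gcd_dvd_right _ _, hn.ne'⟩
      · exact Nat.mem_divisors.mpr ⟨Nat.gcd_dvd_right _ _, hn.ne'⟩
      · show Nat.log 2 z.1 < Nat.log 2 H + 1
        exact Nat.lt_succ_of_le (Nat.log_mono_right hu)
    refine (Finset.card_le_card hsub).trans (le_of_eq ?_)
    rw [Finset.card_product, Finset.card_product, Finset.card_product, Finset.card_range]
    ring
  exact h1.trans (Nat.mul_le_mul_left _ h2)

/-- the number of the solutions -/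
theorem count (g : ℕ) (hg : 2 ≤ g) (H r s n : ℕ) (m : ℤ) (hn : 0 < n) (hr : 0 < r)
    (hs : 0 < s) (hm : n = m.natAbs) :
    (Sol g H r s m).card ≤ (2 * (4 ^ g + 2) + 1) * g *
      ((2 * g) ^ n.primeFactors.card * (n.divisors.card ^ 3 * (Nat.log 2 H + 1))) :=
  (Finset.card_le_mul_card_image (Sol g H r s m) _
    (fun y hy => fibre g hg H r s n m hn hr hs hm y hy)).trans
    (Nat.mul_le_mul_left _ (keys g hg H r s n m hn hr hs hm))

/-- THU: for every `g ≥ 2`, the equation `r u ^ g - s w ^ g = m ≠ 0` has at most `C H ^ ε` solutions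
`u, w ≤ H`, for all `r, s ≤ H` -/
theorem thu (g : ℕ) (hg : 2 ≤ g) (ε : ℝ) (hε : 0 < ε) : ∃ C : ℝ, 1 ≤ C ∧
    ∀ (H r s : ℕ) (m : ℤ), 1 ≤ H → 0 < r → r ≤ H → 0 < s → s ≤ H → m ≠ 0 →
    (((Icc 1 H ×ˢ Icc 1 H).filter
      (fun z : ℕ × ℕ => (r : ℤ) * (z.1 : ℤ) ^ g - s * (z.2 : ℤ) ^ g = m)).card : ℝ) ≤
      C * (H : ℝ) ^ ε := by
  have hg0 : (0 : ℝ) < (g : ℝ) + 1 := by positivity
  obtain ⟨η, hη⟩ : ∃ η, η = ε / (8 * ((g : ℝ) + 1)) := ⟨_, rfl⟩
  have hη0 : 0 < η := by rw [hη]; positivity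
  obtain ⟨C1, hC1, hdiv⟩ := Pool.Agent.H93.BT.divisor_bound η hη0
  obtain ⟨C2, hC2, hom⟩ := Pool.FEX.omb_thm (2 * g : ℝ) η (by
    have : (2 : ℝ) ≤ g := by exact_mod_cast hg
    linarith) hη0
  refine ⟨(2 * (4 ^ g + 2) + 1) * g * (C2 * (C1 ^ 3 * (2 / ε * 2 + 1))), ?_, ?_⟩
  · have h1 : (1 : ℝ) ≤ (2 * (4 ^ g + 2) + 1) * g := by
      have : (2 : ℝ) ≤ g := by exact_mod_cast hg
      have h4 : (0 : ℝ) ≤ 4 ^ g := by positivity
      nlinarith
    have h2 : (1 : ℝ) ≤ C1 ^ 3 := one_le_pow₀ hC1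
    have h3 : (1 : ℝ) ≤ 2 / ε * 2 + 1 := by
      have : 0 ≤ 2 / ε * 2 := by positivity
      linarith
    have h4 : (1 : ℝ) ≤ C1 ^ 3 * (2 / ε * 2 + 1) := one_le_mul_of_one_le_of_one_le h2 h3
    have h5 : (1 : ℝ) ≤ C2 * (C1 ^ 3 * (2 / ε * 2 + 1)) := one_le_mul_of_one_le_of_one_le hC2 h4
    exact one_le_mul_of_one_le_of_one_le h1 h5
  intro H r s m hH hr hrH hs hsH hm
  have hH1 : (1 : ℝ) ≤ H := by exact_mod_cast hH
  have hH0 : (0 : ℝ) < H := by linarith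
  obtain ⟨n, hn⟩ : ∃ n, n = m.natAbs := ⟨_, rfl⟩
  have hn0 : 0 < n := by rw [hn]; exact Int.natAbs_pos.mpr hm
  rcases (Sol g H r s m).eq_empty_or_nonempty with h0 | ⟨z, hz⟩
  · have h1 : ((Icc 1 H ×ˢ Icc 1 H).filter
      (fun z : ℕ × ℕ => (r : ℤ) * (z.1 : ℤ) ^ g - s * (z.2 : ℤ) ^ g = m)) = ∅ := h0
    rw [h1, Finset.card_empty, Nat.cast_zero]
    positivity
  -- `n ≤ H ^ (g + 1)`
  have hnH : n ≤ H ^ (g + 1) := by
    obtain ⟨hz1, hz2⟩ := Finset.mem_filter.mp hz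
    have hz5 := Finset.mem_product.mp hz1
    have hu := (Finset.mem_Icc.mp hz5.1).2
    have hw := (Finset.mem_Icc.mp hz5.2).2
    have h1 : r * z.1 ^ g ≤ H ^ (g + 1) := by
      calc r * z.1 ^ g ≤ H * H ^ g := Nat.mul_le_mul hrH (Nat.pow_le_pow_left hu g)
        _ = H ^ (g + 1) := by ring
    have h2 : s * z.2 ^ g ≤ H ^ (g + 1) := by
      calc s * z.2 ^ g ≤ H * H ^ g := Nat.mul_le_mul hsH (Nat.pow_le_pow_left hw g)
        _ = H ^ (g + 1) := by ring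
    have h3 : m = ((r * z.1 ^ g : ℕ) : ℤ) - ((s * z.2 ^ g : ℕ) : ℤ) := by
      push_cast; exact hz2.symm
    rw [hn, h3]
    omega
  have hcount := count g hg H r s n m hn0 hr hs hn
  have hnr : (n : ℝ) ≤ (H : ℝ) ^ ((g : ℝ) + 1) := by
    have h1 : (n : ℝ) ≤ (H : ℝ) ^ (g + 1) := by exact_mod_cast hnH
    have h2 : ((g : ℝ) + 1) = ((g + 1 : ℕ) : ℝ) := by push_cast; ring
    rw [h2, Real.rpow_natCast]
    exact h1
  have hnη : (n : ℝ) ^ η ≤ (H : ℝ) ^ (ε / 8) := by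
    calc (n : ℝ) ^ η ≤ ((H : ℝ) ^ ((g : ℝ) + 1)) ^ η :=
          Real.rpow_le_rpow (Nat.cast_nonneg _) hnr hη0.le
      _ = (H : ℝ) ^ (((g : ℝ) + 1) * η) := by rw [← Real.rpow_mul hH0.le]
      _ = (H : ℝ) ^ (ε / 8) := by
          congr 1; rw [hη]; field_simp
  have hd : (n.divisors.card : ℝ) ≤ C1 * (H : ℝ) ^ (ε / 8) :=
    (hdiv n hn0.ne').trans (mul_le_mul_of_nonneg_left hnη (by linarith))
  have ho : ((2 * g : ℝ)) ^ n.primeFactors.card ≤ C2 * (H : ℝ) ^ (ε / 8) := by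
    have h1 := hom n hn0
    have h2 : (1 : ℝ) ≤ 2 * g := by
      have : (2 : ℝ) ≤ g := by exact_mod_cast hg
      linarith
    calc ((2 * g : ℝ)) ^ n.primeFactors.card ≤ (2 * g : ℝ) ^ (n.primeFactors.card + 1) :=
          pow_le_pow_right₀ h2 (Nat.le_succ _)
      _ ≤ C2 * (n : ℝ) ^ η := h1
      _ ≤ C2 * (H : ℝ) ^ (ε / 8) := mul_le_mul_of_nonneg_left hnη (by linarith)
  have hl : ((Nat.log 2 H + 1 : ℕ) : ℝ) ≤ (2 / ε * 2 + 1) * (H : ℝ) ^ (ε / 2) := by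
    have h1 : ((Nat.log 2 H : ℕ) : ℝ) ≤ Real.logb 2 H := Real.natLog_le_logb H 2
    have h2 : Real.logb 2 H ≤ 2 * Real.log H := by
      rw [Real.logb, div_le_iff₀ (Real.log_pos (by norm_num))]
      have h3 : (1 / 2 : ℝ) < Real.log 2 := by linarith [Real.log_two_gt_d9]
      have h4 : 0 ≤ Real.log H := Real.log_nonneg hH1
      nlinarith
    have h5 : Real.log H ≤ (H : ℝ) ^ (ε / 2) / (ε / 2) :=
      Real.log_le_rpow_div hH0.le (by positivity)
    have h6 : (1 : ℝ) ≤ (H : ℝ) ^ (ε / 2) := Real.one_le_rpow hH1 (by positivity)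
    have h7 : (H : ℝ) ^ (ε / 2) / (ε / 2) = 2 / ε * (H : ℝ) ^ (ε / 2) := by field_simp
    push_cast
    rw [h7] at h5
    linarith
  have hH8 : 0 ≤ (H : ℝ) ^ (ε / 8) := (Real.rpow_pos_of_pos hH0 _).le
  have hH2 : 0 ≤ (H : ℝ) ^ (ε / 2) := (Real.rpow_pos_of_pos hH0 _).le
  have hprod : (H : ℝ) ^ (ε / 8) * (((H : ℝ) ^ (ε / 8)) ^ 3 * (H : ℝ) ^ (ε / 2)) = (H : ℝ) ^ ε := by
    rw [← Real.rpow_natCast, ← Real.rpow_mul hH0.le, ← Real.rpow_add hH0, ← Real.rpow_add hH0]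
    congr 1
    push_cast
    ring
  show ((Sol g H r s m).card : ℝ) ≤ _
  calc ((Sol g H r s m).card : ℝ)
      ≤ (((2 * (4 ^ g + 2) + 1) * g *
        ((2 * g) ^ n.primeFactors.card * (n.divisors.card ^ 3 * (Nat.log 2 H + 1))) : ℕ) : ℝ) := by
        exact_mod_cast hcount
    _ = (2 * (4 ^ g + 2) + 1) * g * ((2 * g : ℝ) ^ n.primeFactors.card *
        ((n.divisors.card : ℝ) ^ 3 * ((Nat.log 2 H + 1 : ℕ) : ℝ))) := by push_cast; ring
    _ ≤ (2 * (4 ^ g + 2) + 1) * g * ((C2 * (H : ℝ) ^ (ε / 8)) *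
        ((C1 * (H : ℝ) ^ (ε / 8)) ^ 3 * ((2 / ε * 2 + 1) * (H : ℝ) ^ (ε / 2)))) := by
        refine mul_le_mul_of_nonneg_left ?_ (by positivity)
        refine mul_le_mul ho ?_ (by positivity) (by positivity)
        refine mul_le_mul ?_ hl (by positivity) (by positivity)
        exact pow_le_pow_left₀ (by positivity) hd 3
    _ = (2 * (4 ^ g + 2) + 1) * g * (C2 * (C1 ^ 3 * (2 / ε * 2 + 1))) *
        ((H : ℝ) ^ (ε / 8) * (((H : ℝ) ^ (ε / 8)) ^ 3 * (H : ℝ) ^ (ε / 2))) := by ring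
    _ = (2 * (4 ^ g + 2) + 1) * g * (C2 * (C1 ^ 3 * (2 / ε * 2 + 1))) * (H : ℝ) ^ ε := by rw [hprod]

end Pool.THU
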