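import Mathlib

/-! # THU, part A: the real place and the points of a line -/

set_option autoImplicit false

namespace Pool.THU

open Finset

/-- real place: two solutions of `r u ^ g - s w ^ g = m` with `u / 2 ≤ v ≤ 2 u` -/
theorem arch (g : ℕ) (hg : 1 ≤ g) (r s u w v x m : ℝ) (hu : 0 < u)
    (hw : 0 < w) (hv : 0 < v) (hx : 0 < x) (h1 : r * u ^ g - s * w ^ g = m)
    (h2 : r * v ^ g - s * x ^ g = m) (huv : u ≤ 2 * v) (hvu : v ≤ 2 * u) :
    |r * v ^ (g - 1) * u - s * x ^ (g - 1) * w| ≤ (4 ^ g + 2) * |m| := by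
  obtain ⟨t, ht⟩ : ∃ t, t = u / v := ⟨_, rfl⟩
  obtain ⟨y, hy⟩ : ∃ y, y = w / x := ⟨_, rfl⟩
  have ht0 : 0 < t := by rw [ht]; positivity
  have hy0 : 0 < y := by rw [hy]; positivity
  have hut : u = t * v := by rw [ht]; field_simp
  have hwy : w = y * x := by rw [hy]; field_simp
  have ht2 : t ≤ 2 := by rw [ht, div_le_iff₀ hv]; exact huv
  have ht1 : 1 / 2 ≤ t := by rw [ht, le_div_iff₀ hv]; linarith
  obtain ⟨k, rfl⟩ : ∃ k, g = k + 1 := ⟨g - 1, by omega⟩
  have hk : k + 1 - 1 = k := rfl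
  rw [hk]
  have hgs := Commute.geom_sum₂_mul (Commute.all t y) (k + 1)
  obtain ⟨T, hTd⟩ : ∃ S, S = ∑ i ∈ range (k + 1), t ^ i * y ^ (k + 1 - 1 - i) := ⟨_, rfl⟩
  rw [← hTd] at hgs
  have hT1 : t ^ k ≤ T := by
    rw [hTd]
    have h3 : t ^ k * y ^ (k + 1 - 1 - k) ≤ ∑ i ∈ range (k + 1), t ^ i * y ^ (k + 1 - 1 - i) :=
      Finset.single_le_sum (f := fun i => t ^ i * y ^ (k + 1 - 1 - i))
        (fun i _ => by positivity) (Finset.mem_range.mpr (Nat.lt_succ_self k))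
    simpa using h3
  have hE : r * v ^ k * u - s * x ^ k * w = t * m + (t - y) * (s * x ^ (k + 1)) := by
    rw [← h2, hut, hwy]; ring
  have hmain : (t - y) * (s * x ^ (k + 1)) * T = m * (1 - t ^ (k + 1)) := by
    have h4 : (t - y) * (s * x ^ (k + 1)) * T = (t ^ (k + 1) - y ^ (k + 1)) * (s * x ^ (k + 1)) := by
      rw [← hgs]; ring
    rw [h4]
    have h5 : r * (t * v) ^ (k + 1) - s * (y * x) ^ (k + 1) = m := by rw [← hut, ← hwy]; exact h1
    have h6 : r * v ^ (k + 1) = m + s * x ^ (k + 1) := by linarith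
    have h7 : t ^ (k + 1) * (m + s * x ^ (k + 1)) - s * (y * x) ^ (k + 1) = m := by
      rw [← h6, ← h5]; ring
    rw [mul_pow] at h7
    linarith
  have hb1 : |(t - y) * (s * x ^ (k + 1))| * t ^ k ≤ |m| * 2 ^ (k + 1) := by
    calc |(t - y) * (s * x ^ (k + 1))| * t ^ k ≤ |(t - y) * (s * x ^ (k + 1))| * T :=
          mul_le_mul_of_nonneg_left hT1 (abs_nonneg _)
      _ = |(t - y) * (s * x ^ (k + 1)) * T| := by
          rw [abs_mul _ T, abs_of_pos (lt_of_lt_of_le (by positivity) hT1)]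
      _ = |m| * |1 - t ^ (k + 1)| := by rw [hmain, abs_mul]
      _ ≤ |m| * 2 ^ (k + 1) := by
          refine mul_le_mul_of_nonneg_left ?_ (abs_nonneg _)
          have h8 : t ^ (k + 1) ≤ 2 ^ (k + 1) := pow_le_pow_left₀ ht0.le ht2 _
          have h9 : 0 < t ^ (k + 1) := by positivity
          have h10 : (1 : ℝ) ≤ 2 ^ (k + 1) := one_le_pow₀ (by norm_num)
          rw [abs_le]; constructor <;> linarith
  have hb2 : |(t - y) * (s * x ^ (k + 1))| ≤ |m| * 4 ^ (k + 1) := by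
    have h11 : (1 / 2 : ℝ) ^ k ≤ t ^ k := pow_le_pow_left₀ (by norm_num) ht1 _
    have h12 : |(t - y) * (s * x ^ (k + 1))| * (1 / 2 : ℝ) ^ k ≤ |m| * 2 ^ (k + 1) :=
      (mul_le_mul_of_nonneg_left h11 (abs_nonneg _)).trans hb1
    have h13 : (1 / 2 : ℝ) ^ k * 2 ^ k = 1 := by rw [← mul_pow]; norm_num
    calc |(t - y) * (s * x ^ (k + 1))| = |(t - y) * (s * x ^ (k + 1))| * (1 / 2 : ℝ) ^ k * 2 ^ k := by
          rw [mul_assoc, h13, mul_one]
      _ ≤ |m| * 2 ^ (k + 1) * 2 ^ k := mul_le_mul_of_nonneg_right h12 (by positivity)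
      _ ≤ |m| * 2 ^ (k + 1) * 2 ^ (k + 1) := by
          refine mul_le_mul_of_nonneg_left ?_ (by positivity)
          exact pow_le_pow_right₀ (by norm_num) (Nat.le_succ k)
      _ = |m| * 4 ^ (k + 1) := by
          rw [mul_assoc, ← mul_pow]; norm_num
  rw [hE]
  calc |t * m + (t - y) * (s * x ^ (k + 1))| ≤ |t * m| + |(t - y) * (s * x ^ (k + 1))| := abs_add_le _ _
    _ ≤ 2 * |m| + |m| * 4 ^ (k + 1) := by
        refine add_le_add ?_ hb2
        rw [abs_mul, abs_of_pos ht0]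
        exact mul_le_mul_of_nonneg_right ht2 (abs_nonneg _)
    _ = (4 ^ (k + 1) + 2) * |m| := by ring

open Polynomial in
/-- a line contains at most `g` points `(u, w)` with `r u ^ g - s w ^ g = m` -/
theorem line (g : ℕ) (hg : 2 ≤ g) (r s α β γ m : ℝ) (hα : 0 < α)
    (hβ : 0 < β) (hm : m ≠ 0) (S : Finset (ℕ × ℕ))
    (hS : ∀ z ∈ S, r * (z.1 : ℝ) ^ g - s * (z.2 : ℝ) ^ g = m ∧ α * z.1 - β * z.2 = γ) :
    S.card ≤ g := by
  classical
  obtain ⟨Q, hQ⟩ : ∃ Q : ℝ[X], Q = C (r * β ^ g) * X ^ g - C s * (C α * X - C γ) ^ g - C (m * β ^ g) :=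
    ⟨_, rfl⟩
  have hev : ∀ a : ℝ, Q.eval a = r * β ^ g * a ^ g - s * (α * a - γ) ^ g - m * β ^ g := by
    intro a; rw [hQ]; simp
  have hdeg : Q.natDegree ≤ g := by
    rw [hQ]
    refine (natDegree_sub_le _ _).trans (max_le ?_ ?_)
    · refine (natDegree_sub_le _ _).trans (max_le ?_ ?_)
      · exact natDegree_C_mul_X_pow_le _ _
      · refine (natDegree_C_mul_le _ _).trans ?_
        refine natDegree_pow_le.trans ?_
        have h1 : (C α * X - C γ : ℝ[X]).natDegree ≤ 1 := by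
          refine (natDegree_sub_le _ _).trans (max_le ?_ ?_)
          · exact natDegree_C_mul_le _ _ |>.trans natDegree_X_le
          · rw [natDegree_C]; exact Nat.zero_le _
        calc g * (C α * X - C γ : ℝ[X]).natDegree ≤ g * 1 := Nat.mul_le_mul_left _ h1
          _ = g := mul_one g
    · rw [natDegree_C]; exact Nat.zero_le _
  have hQ0 : Q ≠ 0 := by
    intro h0
    have he0 : ∀ a : ℝ, r * β ^ g * a ^ g - s * (α * a - γ) ^ g - m * β ^ g = 0 := by
      intro a; rw [← hev, h0, eval_zero]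
    have hβg : (0 : ℝ) < β ^ g := by positivity
    have hz : (0 : ℝ) ^ g = 0 := zero_pow (by omega)
    have e1 := he0 0
    have e2 := he0 (γ / α)
    have e3 := he0 (2 * (γ / α))
    have h2 : α * (γ / α) - γ = 0 := by field_simp; ring
    have h3 : α * (2 * (γ / α)) - γ = γ := by field_simp; ring
    rw [h2, hz, mul_zero, sub_zero] at e2
    rw [h3, mul_pow] at e3
    rw [mul_zero, zero_sub, hz, mul_zero, zero_sub] at e1
    -- `K = m β ^ g`
    have hK3 : s * γ ^ g = (2 ^ g - 1) * (m * β ^ g) := by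
      have : r * β ^ g * (γ / α) ^ g = m * β ^ g := by linarith
      calc s * γ ^ g = 2 ^ g * (r * β ^ g * (γ / α) ^ g) - m * β ^ g := by linarith
        _ = (2 ^ g - 1) * (m * β ^ g) := by rw [this]; ring
    have hK1 : |s * γ ^ g| = |m * β ^ g| := by
      have h4 : s * (-γ) ^ g = -(m * β ^ g) := by linarith
      have h5 : |s * (-γ) ^ g| = |s * γ ^ g| := by
        rw [abs_mul, abs_mul, abs_pow, abs_pow, abs_neg]
      rw [← h5, h4, abs_neg]
    have h4g : (4 : ℝ) ≤ 2 ^ g := by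
      calc (4 : ℝ) = 2 ^ 2 := by norm_num
        _ ≤ 2 ^ g := pow_le_pow_right₀ (by norm_num) hg
    have hK0 : 0 < |m * β ^ g| := abs_pos.mpr (mul_ne_zero hm hβg.ne')
    rw [hK3, abs_mul, abs_of_pos (by linarith : (0 : ℝ) < 2 ^ g - 1)] at hK1
    nlinarith
  have hroot : ∀ z ∈ S, Q.eval (z.1 : ℝ) = 0 := by
    intro z hz
    obtain ⟨h1, h2⟩ := hS z hz
    rw [hev]
    have h3 : α * (z.1 : ℝ) - γ = β * z.2 := by linarith
    rw [h3, mul_pow, ← h1]; ring
  have hinj : Set.InjOn (fun z : ℕ × ℕ => ((z.1 : ℕ) : ℝ)) (S : Set (ℕ × ℕ)) := by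
    intro z hz z' hz' h
    have h1 : (z.1 : ℝ) = z'.1 := h
    have h2 := (hS z hz).2
    have h3 := (hS z' hz').2
    rw [h1] at h2
    have h4 : β * ((z.2 : ℝ) - z'.2) = 0 := by linarith
    have h5 : (z.2 : ℝ) = z'.2 := by
      rcases mul_eq_zero.mp h4 with h | h
      · exact absurd h hβ.ne'
      · linarith
    exact Prod.ext (by exact_mod_cast h1) (by exact_mod_cast h5)
  have hcard : S.card ≤ Q.roots.toFinset.card := by
    refine Finset.card_le_card_of_injOn (fun z : ℕ × ℕ => ((z.1 : ℕ) : ℝ)) ?_ hinj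
    intro z hz
    rw [Finset.mem_coe, Multiset.mem_toFinset, mem_roots hQ0]
    exact hroot z (Finset.mem_coe.mp hz)
  exact hcard.trans ((Multiset.toFinset_card_le _).trans ((card_roots' Q).trans hdeg))

end Pool.THU
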