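import Pool.Agent.H48.THU.A

/-! # THU, part B: the classes modulo `m` -/

set_option autoImplicit false

namespace Pool.THU

open Finset

/-- `gcd (r u ^ g, n)` divides `r gcd (u, n) ^ g` -/
theorem gcd_dvd (g r u n : ℕ) : Nat.gcd (r * u ^ g) n ∣ r * Nat.gcd u n ^ g := by
  have h1 : ((Nat.gcd (r * u ^ g) n : ℕ) : ℤ) ∣ ((r * Nat.gcd u n ^ g : ℕ) : ℤ) := by
    have hb : ((Nat.gcd u n : ℕ) : ℤ) = u * Nat.gcdA u n + n * Nat.gcdB u n := Nat.gcd_eq_gcd_ab u n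
    have hn : ((Nat.gcd (r * u ^ g) n : ℕ) : ℤ) ∣ (n : ℤ) := by exact_mod_cast Nat.gcd_dvd_right _ _
    have hr : ((Nat.gcd (r * u ^ g) n : ℕ) : ℤ) ∣ ((r * u ^ g : ℕ) : ℤ) := by
      exact_mod_cast Nat.gcd_dvd_left _ _
    have h2 : ((Nat.gcd u n : ℕ) : ℤ) ≡ u * Nat.gcdA u n [ZMOD ((Nat.gcd (r * u ^ g) n : ℕ) : ℤ)] := by
      rw [hb]
      refine (Int.modEq_iff_dvd.mpr ?_)
      have : (u : ℤ) * Nat.gcdA u n - (u * Nat.gcdA u n + n * Nat.gcdB u n) = n * (-Nat.gcdB u n) := by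
        ring
      rw [this]
      exact Dvd.dvd.mul_right hn _
    have h3 := (h2.pow g).mul_left (r : ℤ)
    have h4 : (r : ℤ) * ((u : ℤ) * Nat.gcdA u n) ^ g = ((r * u ^ g : ℕ) : ℤ) * (Nat.gcdA u n) ^ g := by
      push_cast; ring
    rw [h4] at h3
    have h5 : ((r * u ^ g : ℕ) : ℤ) * (Nat.gcdA u n) ^ g ≡ 0 [ZMOD ((Nat.gcd (r * u ^ g) n : ℕ) : ℤ)] :=
      (Int.modEq_zero_iff_dvd.mpr (Dvd.dvd.mul_right hr _))
    have h6 := Int.modEq_zero_iff_dvd.mp (h3.trans h5)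
    push_cast at h6 ⊢
    exact h6
  exact_mod_cast h1

/-- data of one side: `G = gcd (r u ^ g, n)`, `d = gcd (u, n)`, `M = n / G`, `c = r d ^ g / G` -/
theorem side (g r u n G : ℕ) (hg : 1 ≤ g) (hn : 0 < n) (hr : 0 < r) (hu : 0 < u)
    (hG : G = Nat.gcd (r * u ^ g) n) :
    r * u ^ g = G * ((r * Nat.gcd u n ^ g / G) * (u / Nat.gcd u n) ^ g) ∧
    Nat.Coprime (r * Nat.gcd u n ^ g / G) (n / G) ∧ Nat.Coprime (u / Nat.gcd u n) (n / G) ∧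
    G * (r * Nat.gcd u n ^ g / G) = r * Nat.gcd u n ^ g := by
  have hG0 : 0 < G := by rw [hG]; exact Nat.gcd_pos_of_pos_right _ hn
  have h1 : G ∣ r * Nat.gcd u n ^ g := by rw [hG]; exact gcd_dvd g r u n
  have h2 : G * (r * Nat.gcd u n ^ g / G) = r * Nat.gcd u n ^ g := Nat.mul_div_cancel' h1
  have h3 : Nat.gcd u n * (u / Nat.gcd u n) = u := Nat.mul_div_cancel' (Nat.gcd_dvd_left u n)
  have h4 : r * u ^ g = G * ((r * Nat.gcd u n ^ g / G) * (u / Nat.gcd u n) ^ g) := by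
    rw [← mul_assoc, h2, mul_assoc, ← mul_pow, h3]
  have h5 : Nat.Coprime ((r * Nat.gcd u n ^ g / G) * (u / Nat.gcd u n) ^ g) (n / G) := by
    have h6 : (r * Nat.gcd u n ^ g / G) * (u / Nat.gcd u n) ^ g = r * u ^ g / G := by
      rw [h4]; exact (Nat.mul_div_cancel_left _ hG0).symm
    rw [h6, hG]
    exact Nat.coprime_div_gcd_div_gcd (by rw [← hG]; exact hG0)
  refine ⟨h4, Nat.Coprime.coprime_mul_right h5, ?_, h2⟩
  exact (Nat.coprime_pow_left_iff (by omega) _ _).mp (Nat.Coprime.coprime_mul_left h5)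

/-- the class of a solution -/
def zz (n G u w : ℕ) : ℕ :=
  (((u / Nat.gcd u n : ℕ) : ZMod (n / G)) * ((w / Nat.gcd w n : ℕ) : ZMod (n / G))⁻¹).val

/-- the equation of the class -/
theorem cls (g r s u w n G : ℕ) (m : ℤ) (hg : 1 ≤ g) (hn : 0 < n) (hr : 0 < r) (hs : 0 < s)
    (hu : 0 < u) (hw : 0 < w) (hm : n = m.natAbs) (h : (r : ℤ) * (u : ℤ) ^ g - s * (w : ℤ) ^ g = m)
    (hG : G = Nat.gcd (r * u ^ g) n) :
    G = Nat.gcd (s * w ^ g) n ∧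
    ((u / Nat.gcd u n : ℕ) : ZMod (n / G)) =
      (zz n G u w : ZMod (n / G)) * ((w / Nat.gcd w n : ℕ) : ZMod (n / G)) ∧
    ((r * Nat.gcd u n ^ g / G : ℕ) : ZMod (n / G)) * (zz n G u w : ZMod (n / G)) ^ g =
      ((s * Nat.gcd w n ^ g / G : ℕ) : ZMod (n / G)) := by
  have hG0 : 0 < G := by rw [hG]; exact Nat.gcd_pos_of_pos_right _ hn
  have hGn : G ∣ n := by rw [hG]; exact Nat.gcd_dvd_right _ _
  have hM0 : 0 < n / G := Nat.div_pos (Nat.le_of_dvd hn hGn) hG0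
  have : NeZero (n / G) := ⟨hM0.ne'⟩
  have hGM : G * (n / G) = n := Nat.mul_div_cancel' hGn
  have hnm : (n : ℤ) ∣ m := by rw [hm]; exact Int.natAbs_dvd.mpr dvd_rfl
  have hG' : G = Nat.gcd (s * w ^ g) n := by
    rw [hG]
    refine Nat.dvd_antisymm (Nat.dvd_gcd ?_ (Nat.gcd_dvd_right _ _))
      (Nat.dvd_gcd ?_ (Nat.gcd_dvd_right _ _))
    · have h1 : ((Nat.gcd (r * u ^ g) n : ℕ) : ℤ) ∣ ((s * w ^ g : ℕ) : ℤ) := by
        have h2 : ((s * w ^ g : ℕ) : ℤ) = ((r * u ^ g : ℕ) : ℤ) - m := by push_cast; linarith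
        rw [h2]
        refine dvd_sub (by exact_mod_cast Nat.gcd_dvd_left _ _) (Dvd.dvd.trans ?_ hnm)
        exact_mod_cast Nat.gcd_dvd_right _ _
      exact_mod_cast h1
    · have h1 : ((Nat.gcd (s * w ^ g) n : ℕ) : ℤ) ∣ ((r * u ^ g : ℕ) : ℤ) := by
        have h2 : ((r * u ^ g : ℕ) : ℤ) = ((s * w ^ g : ℕ) : ℤ) + m := by push_cast; linarith
        rw [h2]
        refine dvd_add (by exact_mod_cast Nat.gcd_dvd_left _ _) (Dvd.dvd.trans ?_ hnm)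
        exact_mod_cast Nat.gcd_dvd_right _ _
      exact_mod_cast h1
  obtain ⟨a1, a2, a3, a4⟩ := side g r u n G hg hn hr hu hG
  obtain ⟨b1, b2, b3, b4⟩ := side g s w n G hg hn hs hw hG'
  have hw1 : ((w / Nat.gcd w n : ℕ) : ZMod (n / G)) * ((w / Nat.gcd w n : ℕ) : ZMod (n / G))⁻¹ = 1 :=
    ZMod.coe_mul_inv_eq_one _ b3
  have hz : (zz n G u w : ZMod (n / G)) =
      ((u / Nat.gcd u n : ℕ) : ZMod (n / G)) * ((w / Nat.gcd w n : ℕ) : ZMod (n / G))⁻¹ := by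
    rw [zz, ZMod.natCast_val, ZMod.cast_id]
  have hzu : ((u / Nat.gcd u n : ℕ) : ZMod (n / G)) =
      (zz n G u w : ZMod (n / G)) * ((w / Nat.gcd w n : ℕ) : ZMod (n / G)) := by
    rw [hz, mul_assoc, mul_comm (((w / Nat.gcd w n : ℕ) : ZMod (n / G)))⁻¹, hw1, mul_one]
  refine ⟨hG', hzu, ?_⟩
  -- `c u1 ^ g ≡ c' w1 ^ g`
  have e1 : ((r * Nat.gcd u n ^ g / G : ℕ) : ZMod (n / G)) * ((u / Nat.gcd u n : ℕ) : ZMod (n / G)) ^ g =
      ((s * Nat.gcd w n ^ g / G : ℕ) : ZMod (n / G)) * ((w / Nat.gcd w n : ℕ) : ZMod (n / G)) ^ g := by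
    have e2 : ((((r * Nat.gcd u n ^ g / G) * (u / Nat.gcd u n) ^ g : ℕ) : ℤ) : ZMod (n / G)) =
        ((((s * Nat.gcd w n ^ g / G) * (w / Nat.gcd w n) ^ g : ℕ) : ℤ) : ZMod (n / G)) := by
      rw [ZMod.intCast_eq_intCast_iff_dvd_sub]
      obtain ⟨q, hq⟩ := hnm
      refine ⟨-q, ?_⟩
      have e3 : (G : ℤ) * ((((s * Nat.gcd w n ^ g / G) * (w / Nat.gcd w n) ^ g : ℕ) : ℤ) -
          (((r * Nat.gcd u n ^ g / G) * (u / Nat.gcd u n) ^ g : ℕ) : ℤ)) =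
          (G : ℤ) * (((n / G : ℕ) : ℤ) * -q) := by
        have f1 : (G : ℤ) * (((r * Nat.gcd u n ^ g / G) * (u / Nat.gcd u n) ^ g : ℕ) : ℤ) =
            (r : ℤ) * (u : ℤ) ^ g := by exact_mod_cast a1.symm
        have f2 : (G : ℤ) * (((s * Nat.gcd w n ^ g / G) * (w / Nat.gcd w n) ^ g : ℕ) : ℤ) =
            (s : ℤ) * (w : ℤ) ^ g := by exact_mod_cast b1.symm
        have f3 : (G : ℤ) * ((n / G : ℕ) : ℤ) = n := by exact_mod_cast hGM
        calc (G : ℤ) * ((((s * Nat.gcd w n ^ g / G) * (w / Nat.gcd w n) ^ g : ℕ) : ℤ) -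
            (((r * Nat.gcd u n ^ g / G) * (u / Nat.gcd u n) ^ g : ℕ) : ℤ)) =
            (s : ℤ) * (w : ℤ) ^ g - (r : ℤ) * (u : ℤ) ^ g := by rw [mul_sub, f1, f2]
          _ = -m := by linarith
          _ = (n : ℤ) * -q := by rw [hq]; ring
          _ = (G : ℤ) * (((n / G : ℕ) : ℤ) * -q) := by rw [← f3]; ring
      exact mul_left_cancel₀ (by exact_mod_cast hG0.ne') e3
    push_cast at e2
    exact_mod_cast e2
  have hwu : IsUnit (((w / Nat.gcd w n : ℕ) : ZMod (n / G)) ^ g) :=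
    ((ZMod.isUnit_iff_coprime _ _).mpr b3).pow g
  refine hwu.mul_right_cancel ?_
  rw [← e1, hzu, mul_pow]
  ring

/-- two solutions of the same class -/
theorem integral (g r s u w v x n G d d' z : ℕ) (m : ℤ) (hg : 1 ≤ g) (hn : 0 < n) (hr : 0 < r)
    (hs : 0 < s) (hu : 0 < u) (hw : 0 < w) (hv : 0 < v) (hx : 0 < x) (hm : n = m.natAbs)
    (h1 : (r : ℤ) * (u : ℤ) ^ g - s * (w : ℤ) ^ g = m)
    (h2 : (r : ℤ) * (v : ℤ) ^ g - s * (x : ℤ) ^ g = m)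
    (hG1 : G = Nat.gcd (r * u ^ g) n) (hG2 : G = Nat.gcd (r * v ^ g) n)
    (hd1 : d = Nat.gcd u n) (hd2 : d = Nat.gcd v n) (he1 : d' = Nat.gcd w n)
    (he2 : d' = Nat.gcd x n) (hz1 : z = zz n G u w) (hz2 : z = zz n G v x) :
    m ∣ (r : ℤ) * (v : ℤ) ^ (g - 1) * u - s * (x : ℤ) ^ (g - 1) * w := by
  have hG0 : 0 < G := by rw [hG1]; exact Nat.gcd_pos_of_pos_right _ hn
  have hGn : G ∣ n := by rw [hG1]; exact Nat.gcd_dvd_right _ _
  have hGM : G * (n / G) = n := Nat.mul_div_cancel' hGn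
  obtain ⟨c1, c2, c3⟩ := cls g r s u w n G m hg hn hr hs hu hw hm h1 hG1
  obtain ⟨d1, d2, d3⟩ := cls g r s v x n G m hg hn hr hs hv hx hm h2 hG2
  obtain ⟨a1, a2, a3, a4⟩ := side g r u n G hg hn hr hu hG1
  obtain ⟨b1, b2, b3, b4⟩ := side g s w n G hg hn hs hw c1
  rw [← hd1] at c2 c3 a4
  rw [← hd2] at d2 d3
  rw [← he1] at c2 c3 b4
  rw [← he2] at d2 d3
  rw [← hz1] at c2 c3
  rw [← hz2] at d2 d3
  have hud : d * (u / d) = u := by rw [hd1]; exact Nat.mul_div_cancel' (Nat.gcd_dvd_left u n)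
  have hvd : d * (v / d) = v := by rw [hd2]; exact Nat.mul_div_cancel' (Nat.gcd_dvd_left v n)
  have hwd : d' * (w / d') = w := by rw [he1]; exact Nat.mul_div_cancel' (Nat.gcd_dvd_left w n)
  have hxd : d' * (x / d') = x := by rw [he2]; exact Nat.mul_div_cancel' (Nat.gcd_dvd_left x n)
  obtain ⟨k, rfl⟩ : ∃ k, g = k + 1 := ⟨g - 1, by omega⟩
  have hk : k + 1 - 1 = k := rfl
  rw [hk]
  obtain ⟨c, hc⟩ : ∃ c, c = r * d ^ (k + 1) / G := ⟨_, rfl⟩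
  obtain ⟨c', hc'⟩ : ∃ c', c' = s * d' ^ (k + 1) / G := ⟨_, rfl⟩
  rw [← hc] at c3 a4 d3
  rw [← hc'] at c3 b4 d3
  have e1 : r * v ^ k * u = G * (c * (v / d) ^ k * (u / d)) := by
    calc r * v ^ k * u = r * (d * (v / d)) ^ k * (d * (u / d)) := by rw [hvd, hud]
      _ = r * d ^ (k + 1) * ((v / d) ^ k * (u / d)) := by ring
      _ = G * (c * (v / d) ^ k * (u / d)) := by rw [← a4]; ring
  have e2 : s * x ^ k * w = G * (c' * (x / d') ^ k * (w / d')) := by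
    calc s * x ^ k * w = s * (d' * (x / d')) ^ k * (d' * (w / d')) := by rw [hxd, hwd]
      _ = s * d' ^ (k + 1) * ((x / d') ^ k * (w / d')) := by ring
      _ = G * (c' * (x / d') ^ k * (w / d')) := by rw [← b4]; ring
  have e3 : ((c * (v / d) ^ k * (u / d) : ℕ) : ZMod (n / G)) =
      ((c' * (x / d') ^ k * (w / d') : ℕ) : ZMod (n / G)) := by
    push_cast
    rw [← c3]
    calc (c : ZMod (n / G)) * ((v / d : ℕ) : ZMod (n / G)) ^ k * ((u / d : ℕ) : ZMod (n / G)) =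
        c * ((z : ZMod (n / G)) * ((x / d' : ℕ) : ZMod (n / G))) ^ k *
          ((z : ZMod (n / G)) * ((w / d' : ℕ) : ZMod (n / G))) := by rw [d2, c2]
      _ = c * (z : ZMod (n / G)) ^ (k + 1) * ((x / d' : ℕ) : ZMod (n / G)) ^ k *
          ((w / d' : ℕ) : ZMod (n / G)) := by ring
  have e4 : (((n / G : ℕ) : ℤ)) ∣ ((c * (v / d) ^ k * (u / d) : ℕ) : ℤ) -
      ((c' * (x / d') ^ k * (w / d') : ℕ) : ℤ) := by
    have e5 := (ZMod.natCast_eq_natCast_iff _ _ _).mp e3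
    have e6 := (Nat.modEq_iff_dvd.mp e5)
    have e7 := (dvd_neg.mpr e6)
    rwa [neg_sub] at e7
  obtain ⟨q, hq⟩ := e4
  have e8 : (r : ℤ) * (v : ℤ) ^ k * u - s * (x : ℤ) ^ k * w = (n : ℤ) * q := by
    have f1 : (r : ℤ) * (v : ℤ) ^ k * u = G * ((c * (v / d) ^ k * (u / d) : ℕ) : ℤ) := by
      exact_mod_cast e1
    have f2 : (s : ℤ) * (x : ℤ) ^ k * w = G * ((c' * (x / d') ^ k * (w / d') : ℕ) : ℤ) := by
      exact_mod_cast e2
    have f3 : (G : ℤ) * ((n / G : ℕ) : ℤ) = n := by exact_mod_cast hGM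
    rw [f1, f2, ← mul_sub, hq, ← mul_assoc, f3]
  rw [e8]
  have hnm : m ∣ (n : ℤ) := by rw [hm]; exact Int.dvd_natAbs.mpr dvd_rfl
  exact Dvd.dvd.mul_right hnm q

end Pool.THU
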